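import Pool.Agent.Helper62.HX.Stm
import Pool.Agent.Helper18.BM.HW

/-!
# HX, H9: isotropy of the Hasse-Witt functionals for even degree
-/

set_option autoImplicit false

open Polynomial Matrix Finset

namespace Pool.Agent.Helper59.HX

open Pool.Agent.Helper62.BM Pool.Agent.Helper62.BW Pool.Agent.Helper62.BX Pool.Agent.Helper62.VX
open Pool.Agent.Helper62.HX Pool.Agent.Helper18.BM

/-- `L_HWiso` for any degree. -/
theorem isoN {R : Type} [CommRing R] (p : ℕ) [Fact p.Prime] [CharP R p] (hp2 : p ≠ 2) (g N : ℕ)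
    (h : R[X]) (hdeg : h.natDegree ≤ N + 1) (i i' : Fin g) :
    ∑ l : Fin N, ∑ m : Fin N, Yh p g N h i l *
      ((((l : ℕ) : R) - ((m : ℕ) : R)) * h.coeff ((l : ℕ) + m + 2)) *
      Yh p g N h i' m = 0 := by
  have hp : p.Prime := Fact.out
  obtain ⟨q', hq'⟩ : ∃ q', p = 2 * (q' + 1) + 1 := by
    have h1 := hp.two_le
    have h2 : p % 2 = 1 := hp.mod_two_eq_one_iff_ne_two.mpr hp2
    exact ⟨p / 2 - 1, by omega⟩
  have hq : (p - 1) / 2 = q' + 1 := by omega
  have key := iso_gen p hq' h N hdeg i i'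
  have h1 : h.map Polynomial.C ^ (q' + 1) * Polynomial.C h ^ (q' + 1) * Q2 N h =
      ∑ l ∈ range N, ∑ m ∈ range N,
        Polynomial.C (Polynomial.C ((((l : ℕ) : R) - ((m : ℕ) : R)) * h.coeff (l + m + 2))) *
          ((X ^ l * h ^ (q' + 1)).map Polynomial.C * Polynomial.C (X ^ m * h ^ (q' + 1))) := by
    unfold Q2
    rw [Finset.mul_sum]
    refine Finset.sum_congr rfl fun l _ => ?_
    rw [Finset.mul_sum]
    refine Finset.sum_congr rfl fun m _ => ?_
    generalize Polynomial.C (Polynomial.C ((((l : ℕ) : R) - ((m : ℕ) : R)) * h.coeff (l + m + 2))) = c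
    rw [Polynomial.map_mul, Polynomial.map_pow, Polynomial.map_pow, Polynomial.map_X, C_mul, C_pow, C_pow]
    ring
  rw [h1, cc_sum] at key
  simp only [cc_sum, cc_prod] at key
  rw [Finset.sum_range] at key
  simp only [Finset.sum_range] at key
  simp only [Yh, hq, Matrix.of_apply]
  exact key

lemma natDegree_bE {R : Type} [CommRing R] (g : ℕ) (G : R[X]) (hG : G.natDegree ≤ g + 1)
    (l : Fin (2 * g)) : (bE g G l).natDegree < 2 * g + 1 := by
  have hl := l.isLt
  unfold bE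
  split_ifs with h
  · exact lt_of_le_of_lt (natDegree_X_pow_le _) (by omega)
  · refine lt_of_le_of_lt (natDegree_mul_le.trans (add_le_add (natDegree_X_pow_le _) hG)) ?_
    omega

/-- The functionals in the two bases. -/
lemma YE_eq {R : Type} [CommRing R] (p g : ℕ) (G F : R[X]) (hG : G.natDegree ≤ g + 1) (i : Fin g)
    (l : Fin (2 * g)) :
    YE p g G F i l = ∑ k : Fin (2 * g + 1), Yh p g (2 * g + 1) F i k * (bE g G l).coeff k := by
  simp only [YE, Yh, Matrix.of_apply]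
  conv_lhs => rw [as_sum_range' (bE g G l) (2 * g + 1) (natDegree_bE g G hG l)]
  rw [Finset.sum_mul, finsetSum_coeff, Finset.sum_range]
  refine Finset.sum_congr rfl fun k _ => ?_
  rw [← C_mul_X_pow_eq_monomial, mul_assoc, coeff_C_mul, mul_comm]

/-- H9, from the first part of `H_QE`. -/
theorem h_HWiso' (hQE : ∀ (R : Type) [CommRing R] (g : ℕ) (G H : R[X]), 1 ≤ g → G.Monic →
    G.natDegree = g + 1 → H.natDegree ≤ g → ∀ i j : Fin (2 * g + 1),
    ∑ m, ∑ n, (bE g G m).coeff i * QE g G H m n * (bE g G n).coeff j =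
      (((i : ℕ) : R) - ((j : ℕ) : R)) * (G ^ 2 + H).coeff ((i : ℕ) + j + 2)) : H_HWiso := by
  intro R _ p _ _ hp2 g G H hg hG hGd hHd
  have hFd : (G ^ 2 + H).natDegree ≤ (2 * g + 1) + 1 := by
    refine natDegree_add_le_of_degree_le ?_ (by omega)
    refine natDegree_pow_le.trans ?_
    omega
  ext i i'
  have h0 := isoN p hp2 g (2 * g + 1) (G ^ 2 + H) hFd i i'
  rw [Matrix.zero_apply, ← h0]
  simp only [Matrix.mul_apply, Matrix.transpose_apply, YE_eq p g G (G ^ 2 + H) hGd.le]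
  have e1 : ∀ a b : Fin (2 * g + 1),
      Yh p g (2 * g + 1) (G ^ 2 + H) i a *
        ((((a : ℕ) : R) - ((b : ℕ) : R)) * (G ^ 2 + H).coeff ((a : ℕ) + b + 2)) *
        Yh p g (2 * g + 1) (G ^ 2 + H) i' b =
      ∑ m, ∑ n, Yh p g (2 * g + 1) (G ^ 2 + H) i a * ((bE g G m).coeff a * QE g G H m n *
        (bE g G n).coeff b) * Yh p g (2 * g + 1) (G ^ 2 + H) i' b := by
    intro a b
    rw [← hQE R g G H hg hG hGd hHd a b, Finset.mul_sum, Finset.sum_mul]
    refine Finset.sum_congr rfl fun m _ => ?_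
    rw [Finset.mul_sum, Finset.sum_mul]
  simp only [e1]
  simp only [Finset.sum_mul, Finset.mul_sum]
  -- both sides are sums over `m n a b`
  have e2 : ∀ (f : Fin (2 * g) → Fin (2 * g + 1) → Fin (2 * g) → Fin (2 * g + 1) → R),
      (∑ n, ∑ b, ∑ m, ∑ a, f n b m a) = ∑ a, ∑ b, ∑ m, ∑ n, f n b m a := by
    intro f
    calc (∑ n, ∑ b, ∑ m, ∑ a, f n b m a) = ∑ n, ∑ b, ∑ a, ∑ m, f n b m a :=
          Finset.sum_congr rfl fun n _ => Finset.sum_congr rfl fun b _ => Finset.sum_comm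
      _ = ∑ n, ∑ a, ∑ b, ∑ m, f n b m a := Finset.sum_congr rfl fun n _ => Finset.sum_comm
      _ = ∑ a, ∑ n, ∑ b, ∑ m, f n b m a := Finset.sum_comm
      _ = ∑ a, ∑ b, ∑ n, ∑ m, f n b m a := Finset.sum_congr rfl fun a _ => Finset.sum_comm
      _ = ∑ a, ∑ b, ∑ m, ∑ n, f n b m a :=
          Finset.sum_congr rfl fun a _ => Finset.sum_congr rfl fun b _ => Finset.sum_comm
  rw [e2]
  refine Finset.sum_congr rfl fun a _ => Finset.sum_congr rfl fun b _ => ?_
  refine Finset.sum_congr rfl fun m _ => Finset.sum_congr rfl fun n _ => ?_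
  ring

/-- H9. -/
theorem h_HWiso (hQE : H_QE) : H_HWiso := h_HWiso' hQE.1

end Pool.Agent.Helper59.HX
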